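import Pool.Agent.H.MP_2cf87a_nt.D

set_option autoImplicit false

namespace Pool.Agent.Results.MP_2cf87a_nt.FullDim

/-- distance to the nearest integer -/
noncomputable def nd (x : ℝ) : ℝ := |x - round x|

/-- the set `B_s` in the Euclidean plane -/
def B (s : ℝ) : Set (EuclideanSpace ℝ (Fin 2)) :=
  {p | ∃ c : ℝ, 0 < c ∧ ∀ n : ℕ, 1 ≤ n →
    c ≤ n * (min (nd (n * p 0)) (nd (n * p 1))) ^ s * (max (nd (n * p 0)) (nd (n * p 1))) ^ (2 - s)}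

theorem result : ∀ s : ℝ, 0 < s → s < 1 → dimH (B s) = 2 := by
  intro s s0 s1
  let e : EuclideanSpace ℝ (Fin 2) ≃L[ℝ] ℝ × ℝ :=
    (EuclideanSpace.equiv (Fin 2) ℝ).trans (ContinuousLinearEquiv.finTwoArrow ℝ ℝ)
  have h : B s = e ⁻¹' Pool.Agent.H.MP_2cf87a_nt.BP s := rfl
  rw [h, e.dimH_preimage, Pool.Agent.H.MP_2cf87a_nt.dim_BP s0 s1]

end Pool.Agent.Results.MP_2cf87a_nt.FullDim
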